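import Mathlib
import Pool.Agent.R706.OreExt

/-!
# The right strong rank condition for Ore extensions with surjective twist

If `σ` is a surjective endomorphism of `R` and `R` satisfies the right strong rank condition, then
so does `R[x; σ, δ]`, for every `σ`-derivation `δ`.
-/

namespace Pool.Agent.Results.MP_62e324_al.SurjectiveTwist

open Pool.Agent.R706 Finset

universe u v

/-- The right strong rank condition: for `n ≥ 1` there is no injective homomorphism of right
`A`-modules `A^(n+1) → A^n` (right `A`-modules are left modules over the opposite ring). -/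
def RSRC (A : Type u) [Ring A] : Prop :=
  ∀ n : ℕ, 1 ≤ n → ¬ ∃ f : (Fin (n + 1) → A) →ₗ[Aᵐᵒᵖ] (Fin n → A), Function.Injective f

/-- an injective matrix -/
def InjMat (A : Type u) [Ring A] {M N : Type} [Fintype N] (C : Matrix M N A) : Prop :=
  ∀ v : N → A, (∀ i, ∑ j, C i j * v j = 0) → v = 0

theorem injMat_of_not_RSRC {A : Type u} [Ring A] (h : ¬ RSRC A) :
    ∃ n : ℕ, 1 ≤ n ∧ ∃ C : Matrix (Fin n) (Fin (n + 1)) A, InjMat A C := by
  unfold RSRC at h
  push Not at h
  obtain ⟨n, hn, f, hf⟩ := h
  refine ⟨n, hn, fun i j => f (Pi.single j 1) i, ?_⟩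
  intro v hv
  apply hf
  rw [map_zero]
  ext i
  have : v = ∑ j, MulOpposite.op (v j) • (Pi.single j (1 : A) : Fin (n + 1) → A) := by
    ext k
    simp [Finset.sum_apply, Pi.single_apply]
  rw [this, map_sum, Finset.sum_apply]
  simp only [map_smul, Pi.smul_apply, op_smul_eq_mul]
  exact hv i

/-- RSRC forbids injective matrices with more columns than rows. -/
theorem card_le_of_RSRC {A : Type u} [Ring A] (h : RSRC A) {M N : Type} [Fintype M] [Fintype N]
    (hM : 1 ≤ Fintype.card M) (C : Matrix M N A) (hC : InjMat A C) :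
    Fintype.card N ≤ Fintype.card M := by
  by_contra hlt
  push Not at hlt
  set m := Fintype.card M with hm
  let eM : Fin m ≃ M := (Fintype.equivFin M).symm
  have hle : m + 1 ≤ Fintype.card N := hlt
  let eN : Fin (m + 1) ↪ N := (Fin.castLEEmb hle).trans (Fintype.equivFin N).symm.toEmbedding
  refine h m hM ⟨{ toFun := fun v i => ∑ j, C (eM i) (eN j) * v j, map_add' := ?_, map_smul' := ?_ }, ?_⟩
  · intro v w
    ext i
    simp [mul_add, Finset.sum_add_distrib]
  · intro r v
    ext i
    simp [Finset.sum_mul, mul_assoc]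
  · rw [injective_iff_map_eq_zero]
    intro v hv
    classical
    let w : N → A := Function.extend eN v 0
    have hw : w = 0 := by
      apply hC
      intro i
      have h1 := congrFun hv (eM.symm i)
      simp only [LinearMap.coe_mk, AddHom.coe_mk, Equiv.apply_symm_apply, Pi.zero_apply] at h1
      rw [← h1]
      symm
      have h2 : ∀ j, v j = w (eN j) := fun j => (eN.injective.extend_apply v 0 j).symm
      simp only [h2]
      rw [← Finset.sum_map Finset.univ eN (fun j => C i j * w j)]
      apply Finset.sum_subset (Finset.subset_univ _)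
      intro x _ hx
      have : w x = 0 := by
        apply Function.extend_apply'
        rintro ⟨j, hj⟩
        apply hx
        rw [Finset.mem_map]
        exact ⟨j, Finset.mem_univ _, hj⟩
      rw [this, mul_zero]
    ext j
    have h3 : w (eN j) = v j := eN.injective.extend_apply v 0 j
    rw [← h3, hw]
    rfl

section Ore
variable {R : Type u} {A : Type v} [Ring R] [Ring A] {σ : R →+* R} {δ : R →+ R}
  {ι : R →+* A} {x : A}

/-- elements of the form `∑_{j < d} x^j r_j` -/
def G (ι : R →+* A) (x : A) (d : ℕ) (a : A) : Prop :=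
  ∃ f : ℕ → R, a = ∑ j ∈ range d, x ^ j * ι (f j)

theorem G_add {d : ℕ} {a b : A} (ha : G ι x d a) (hb : G ι x d b) : G ι x d (a + b) := by
  obtain ⟨f, rfl⟩ := ha
  obtain ⟨g, rfl⟩ := hb
  exact ⟨f + g, by simp [mul_add, Finset.sum_add_distrib]⟩

theorem G_neg {d : ℕ} {a : A} (ha : G ι x d a) : G ι x d (-a) := by
  obtain ⟨f, rfl⟩ := ha
  exact ⟨-f, by simp⟩

theorem G_zero {d : ℕ} : G ι x d 0 := ⟨0, by simp⟩

theorem G_sum {d : ℕ} {T : Type} (s : Finset T) (a : T → A) (h : ∀ i ∈ s, G ι x d (a i)) :
    G ι x d (∑ i ∈ s, a i) := by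
  classical
  induction s using Finset.induction_on with
  | empty => simpa using G_zero
  | insert i s hi ih =>
    rw [Finset.sum_insert hi]
    exact G_add (h i (Finset.mem_insert_self i s)) (ih fun j hj => h j (Finset.mem_insert_of_mem hj))

theorem G_mono {d e : ℕ} (h : d ≤ e) {a : A} (ha : G ι x d a) : G ι x e a := by
  obtain ⟨f, rfl⟩ := ha
  refine ⟨fun j => if j < d then f j else 0, ?_⟩
  rw [← Finset.sum_subset (Finset.range_mono h)]
  · apply Finset.sum_congr rfl
    intro j hj
    simp only [if_pos (Finset.mem_range.1 hj)]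
  · intro j _ hj
    have hj' : ¬ j < d := by simpa using hj
    simp only [if_neg hj', map_zero, mul_zero]

theorem G_mul_right {d : ℕ} {a : A} (ha : G ι x d a) (r : R) : G ι x d (a * ι r) := by
  obtain ⟨f, rfl⟩ := ha
  exact ⟨fun j => f j * r, by rw [Finset.sum_mul]; simp [mul_assoc]⟩

theorem G_x_mul {d : ℕ} {a : A} (ha : G ι x d a) : G ι x (d + 1) (x * a) := by
  obtain ⟨f, rfl⟩ := ha
  refine ⟨fun j => if j = 0 then 0 else f (j - 1), ?_⟩
  rw [Finset.sum_range_succ', Finset.mul_sum]
  simp [pow_succ', mul_assoc]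

theorem G_xpow_mul {d : ℕ} {a : A} (ha : G ι x d a) (i : ℕ) : G ι x (i + d) (x ^ i * a) := by
  induction i with
  | zero => simpa using ha
  | succ i ih =>
    rw [pow_succ', mul_assoc, show i + 1 + d = i + d + 1 by omega]
    exact G_x_mul ih

/-- `r x^j` lies in `∑_{i ≤ j} x^i R` if `σ` is surjective. -/
theorem G_coe_mul_pow (hA : IsOreExtension σ δ ι x) (hσ : Function.Surjective σ) (j : ℕ) :
    ∀ r : R, G ι x (j + 1) (ι r * x ^ j) := by
  induction j with
  | zero => intro r; exact ⟨fun _ => r, by simp⟩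
  | succ j ih =>
    intro r
    obtain ⟨s, rfl⟩ := hσ r
    have h1 : ι (σ s) * x = x * ι s - ι (δ s) := by rw [hA.comm]; abel
    rw [pow_succ', ← mul_assoc, h1, sub_mul, mul_assoc, sub_eq_add_neg]
    exact G_add (G_x_mul (ih s)) (G_neg (G_mono (by omega) (ih _)))

theorem exists_G (hA : IsOreExtension σ δ ι x) (hσ : Function.Surjective σ) (a : A) :
    ∃ d, G ι x d a := by
  obtain ⟨f, rfl⟩ := hA.bij.2 a
  refine ⟨f.support.sup id + 1, ?_⟩
  apply G_sum
  intro i hi
  exact G_mono (Nat.succ_le_succ (Finset.le_sup (f := id) hi)) (G_coe_mul_pow hA hσ i (f i))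

theorem G_mul (hA : IsOreExtension σ δ ι x) (hσ : Function.Surjective σ) {d e : ℕ} {a b : A}
    (ha : G ι x (d + 1) a) (hb : G ι x (e + 1) b) : G ι x (d + e + 1) (a * b) := by
  obtain ⟨f, rfl⟩ := ha
  obtain ⟨g, rfl⟩ := hb
  rw [Finset.sum_mul]
  apply G_sum
  intro i hi
  rw [Finset.mul_sum]
  apply G_sum
  intro j hj
  rw [Finset.mem_range] at hi hj
  have : x ^ i * ι (f i) * (x ^ j * ι (g j)) = x ^ i * (ι (f i) * x ^ j) * ι (g j) := by
    simp only [mul_assoc]
  rw [this]
  exact G_mul_right (G_mono (by omega) (G_xpow_mul (G_coe_mul_pow hA hσ j (f i)) i)) _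

/-- iterating an injective matrix -/
theorem iterate (hA : IsOreExtension σ δ ι x) (hσ : Function.Surjective σ) {n : ℕ}
    (C : Matrix (Fin n) (Fin (n + 1)) A) (hC : InjMat A C) (d : ℕ)
    (hd : ∀ i j, G ι x (d + 1) (C i j)) (k : ℕ) :
    ∃ (M N : Type) (_ : Fintype M) (_ : Fintype N) (D : Matrix M N A),
      Fintype.card M = n ^ k ∧ Fintype.card N = (n + 1) ^ k ∧ InjMat A D ∧
        ∀ i j, G ι x (k * d + 1) (D i j) := by
  induction k with
  | zero =>
    refine ⟨Unit, Unit, inferInstance, inferInstance, fun _ _ => 1, by simp, by simp, ?_, ?_⟩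
    · intro v hv
      ext i
      simpa using hv i
    · intro _ _
      exact ⟨fun _ => 1, by simp⟩
  | succ k ih =>
    obtain ⟨M, N, _, _, D, hM, hN, hD, hdeg⟩ := ih
    refine ⟨M × Fin n, N × Fin (n + 1), inferInstance, inferInstance,
      fun p q => D p.1 q.1 * C p.2 q.2, ?_, ?_, ?_, ?_⟩
    · rw [Fintype.card_prod, hM, Fintype.card_fin, pow_succ]
    · rw [Fintype.card_prod, hN, Fintype.card_fin, pow_succ]
    · intro v hv
      have h1 : ∀ i a, ∑ j, C i j * v (a, j) = 0 := by
        intro i a
        have h2 : (fun a => ∑ j, C i j * v (a, j)) = 0 := by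
          apply hD
          intro b
          have h3 := hv (b, i)
          rw [Fintype.sum_prod_type] at h3
          rw [← h3]
          apply Finset.sum_congr rfl
          intro a _
          rw [Finset.mul_sum]
          apply Finset.sum_congr rfl
          intro j _
          rw [mul_assoc]
        exact congrFun h2 a
      ext ⟨a, j⟩
      have h4 : (fun j => v (a, j)) = 0 := hC _ fun i => h1 i a
      exact congrFun h4 j
    · intro p q
      have := G_mul hA hσ (hdeg p.1 q.1) (hd p.2 q.2)
      rwa [show k * d + d + 1 = (k + 1) * d + 1 by ring] at this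

/-- passing from an injective matrix over `A` to an injective matrix over `R` -/
theorem descend (hA : IsOreExtension σ δ ι x) {M N : Type} [Fintype M] [Fintype N]
    (D : Matrix M N A) (hD : InjMat A D) (m : ℕ) (hdeg : ∀ i j, G ι x m (D i j)) :
    ∃ E : Matrix (M × Fin m) N R, InjMat R E := by
  choose f hf using hdeg
  refine ⟨fun p j => f p.1 j p.2, ?_⟩
  intro v hv
  have hι : Function.Injective ι := by
    intro r s hrs
    have : (Finsupp.single 0 r : ℕ →₀ R) = Finsupp.single 0 s := hA.bij.1 (by simpa using hrs)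
    exact Finsupp.single_injective 0 this
  have h1 : (fun j => ι (v j)) = 0 := by
    apply hD
    intro i
    calc ∑ j, D i j * ι (v j) = ∑ j, ∑ l ∈ range m, x ^ l * ι (f i j l * v j) := by
          apply Finset.sum_congr rfl
          intro j _
          rw [hf i j, Finset.sum_mul]
          simp [mul_assoc]
      _ = ∑ l ∈ range m, x ^ l * ι (∑ j, f i j l * v j) := by
          rw [Finset.sum_comm]
          simp [Finset.mul_sum, map_sum]
      _ = 0 := by
          apply Finset.sum_eq_zero
          intro l hl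
          have h2 := hv (i, ⟨l, Finset.mem_range.1 hl⟩)
          simp only at h2
          rw [h2, map_zero, mul_zero]
  ext j
  apply hι
  rw [Pi.zero_apply, map_zero]
  exact congrFun h1 j

theorem growth (n d : ℕ) (hn : 1 ≤ n) : ∃ k, n ^ k * (k * d + 1) < (n + 1) ^ k := by
  set m := 2 * d * n ^ 2 + 1 with hm
  refine ⟨2 * m, ?_⟩
  have h1 : ∀ m : ℕ, n ^ m * (n + m) ≤ n * (n + 1) ^ m := by
    intro m
    induction m with
    | zero => simp
    | succ m ih =>
      calc n ^ (m + 1) * (n + (m + 1)) = n ^ m * (n * (n + m) + n) := by ring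
        _ ≤ n ^ m * ((n + 1) * (n + m)) := by
            apply Nat.mul_le_mul_left
            nlinarith
        _ = (n + 1) * (n ^ m * (n + m)) := by ring
        _ ≤ (n + 1) * (n * (n + 1) ^ m) := Nat.mul_le_mul_left _ ih
        _ = n * (n + 1) ^ (m + 1) := by ring
  have h2 := Nat.mul_le_mul (h1 m) (h1 m)
  have hpos : 0 < n ^ m := Nat.pow_pos hn
  have h3 : n ^ 2 * (n ^ (2 * m) * (2 * m * d + 1)) < n ^ 2 * (n + 1) ^ (2 * m) := by
    calc n ^ 2 * (n ^ (2 * m) * (2 * m * d + 1))
        = (n ^ m * n ^ m) * (m * (2 * d * n ^ 2) + n ^ 2) := by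
          rw [two_mul, pow_add]; ring
      _ < (n ^ m * n ^ m) * ((n + m) * (n + m)) := by
          apply Nat.mul_lt_mul_of_pos_left _ (Nat.mul_pos hpos hpos)
          have h4 : 2 * d * n ^ 2 ≤ m := by omega
          have h5 := Nat.mul_le_mul_left m h4
          nlinarith
      _ = n ^ m * (n + m) * (n ^ m * (n + m)) := by ring
      _ ≤ n * (n + 1) ^ m * (n * (n + 1) ^ m) := h2
      _ = n ^ 2 * (n + 1) ^ (2 * m) := by rw [two_mul m, pow_add]; ring
  exact Nat.lt_of_mul_lt_mul_left h3

end Ore

/-- **RSRC passes to Ore extensions with surjective twist.**  Let `R` be a ring with the right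
strong rank condition, `σ` a surjective endomorphism of `R` and `δ` a `σ`-derivation.  Then the
Ore extension `A = R[x; σ, δ]` satisfies the right strong rank condition. -/
theorem result {R : Type u} {A : Type v} [Ring R] [Ring A] (σ : R →+* R)
    (hσ : Function.Surjective σ) (δ : R →+ R) (_hδ : ∀ r s, δ (r * s) = δ r * s + σ r * δ s)
    (ι : R →+* A) (x : A) (hA : IsOreExtension σ δ ι x) (hR : RSRC R) : RSRC A := by
  by_contra hcon
  obtain ⟨n, hn, C, hC⟩ := injMat_of_not_RSRC hcon
  have h1 : ∀ i j, ∃ d, G ι x d (C i j) := fun i j => exists_G hA hσ _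
  choose d hd using h1
  let D := ∑ i, ∑ j, d i j
  have hD : ∀ i j, G ι x (D + 1) (C i j) := by
    intro i j
    refine G_mono ?_ (hd i j)
    have h2 : d i j ≤ ∑ j, d i j := Finset.single_le_sum (fun _ _ => Nat.zero_le _) (Finset.mem_univ j)
    have h3 : ∑ j, d i j ≤ ∑ i, ∑ j, d i j :=
      Finset.single_le_sum (f := fun i => ∑ j, d i j) (fun _ _ => Nat.zero_le _) (Finset.mem_univ i)
    omega
  obtain ⟨k, hk⟩ := growth n D hn
  obtain ⟨M, N, _, _, B, hM, hN, hB, hdeg⟩ := iterate hA hσ C hC D hD k
  obtain ⟨E, hE⟩ := descend hA B hB _ hdeg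
  have h4 := card_le_of_RSRC hR (M := M × Fin (k * D + 1)) (N := N) (by
    rw [Fintype.card_prod, Fintype.card_fin, hM]
    exact Nat.mul_pos (Nat.pow_pos hn) (by omega)) E hE
  rw [Fintype.card_prod, Fintype.card_fin, hM, hN] at h4
  omega

end Pool.Agent.Results.MP_62e324_al.SurjectiveTwist
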